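import Pool.Agent.U191.EZ.Final

/-!
# Grothendieck's coniveau question for varieties dominated by products of curves

Let `C_1, …, C_n` be smooth projective curves (any number of them, of any genera), with actions of
finite groups `G_1, …, G_n` by automorphisms, and suppose that all irreducible characters of all
`G_i` have values in one and the same field `ℚ(√-e)` (`ℚ` if `e = 0`). For instance the `G_i` may
be any groups with rational characters (symmetric groups, Weyl groups, elementary abelian
`2`-groups, the quaternion group, …), or any abelian groups of exponent dividing `4`, or any abelian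
groups of exponent dividing `6`, or `SL_2(𝔽_3)`, …. Let `X = C_1 × ⋯ × C_n × B`, where `B` is a
point, with the action of `G = G_1 × ⋯ × G_n`, and let `N^c` be the coniveau filtration.

**Theorem.**

(1) Let `a = ∑ a(γ) γ` be any element of the rational group algebra `ℚ[G]`. If `a_* = 0` on
`H^{p,q}(X)` for all `p + q = i` with `min (p, q) < c`, then `a_* H^i(X) ⊆ N^c H^i(X)`: the
generalized Hodge conjecture holds for the Hodge substructure `a_* H^i(X)`.

(2) Let `Y` be any variety which is dominated by a quotient of `X` in the following sense
(`IsSummandOne`): there are correspondences `α` from `X` to `Y` and `β` from `Y` to `X` of degree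
zero such that `β_* α_* = a_*` on `H^i(X)` for some `a` in `ℚ[G]`, and `α_* β_* = 1` on `H^i(Y)`
modulo `N^1`; for instance `Y` may be any resolution of singularities of the quotient of `X` by any
subgroup `S` of `G` (with `α` the closure of the graph, `β` its transpose divided by the order of
`S`, and `a` the averaging idempotent). If `h^{i,0}(Y) = 0` then `H^i(Y) = N^1 H^i(Y)`, that is, there is a dense
open subset `U` of `Y` such that `H^i(Y) → H^i(U)` is zero. This is Q1 for `Y`, in each degree `i`
separately.

(3) Let `f : X ⟶ Y` be the quotient of `X` by a subgroup `S` of `G`, with `Y` smooth. If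
`H^{p,q}(Y) = 0` for all `p + q = i` with `min (p, q) < c`, then `H^i(Y) = N^c H^i(Y)`: the
generalized Hodge conjecture for `H^i(Y)`, for all `i` and all `c`. (That `S` is a subgroup is not
used.)

`N^c H(V)` is the sum of the images of the push-forwards `g_* : H(W) → H(V)` for all
morphisms `g : W ⟶ V` from smooth projective varieties `W` with `dim W + c ≤ dim V`; by
resolution of singularities and Deligne's theorem on weights it is the space of sums of classes
which vanish on the complement of a closed subset of codimension at least `c`. The rational classes
in it have the analogous description, because it is defined over `ℚ`.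

## The proof

The group algebra is split by the products `χ = χ_1 ⊗ ⋯ ⊗ χ_n` of irreducible characters. The
`χ`-isotypic part of `H^i(X)` is spanned by products of isotypic classes of the factors of given
degrees `j_1, …, j_n` with sum `i` (`PT`). A class of degree two on a curve lies in `N^1`. The
`χ_k`-isotypic part of `H^1(C_k)` has types `(1,0)`, `(0,1)`, both or none. If there is a nonzero
product class of type `(p, q)` with `p + q = i`, `min (p, q) < c`, then `χ a = 0` in the group
algebra. Otherwise there are `c` disjoint objects of the following kind: factors with a class of
degree two, and pairs of factors the first of which is purely of type `(1,0)` and the second of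
which is purely of type `(0,1)` (`types_of_pt`). For such a pair the sum of the isotypic parts of
`H^1 ⊗ H^1` belonging to the character and to its conjugate is rational, because the values are in an
imaginary quadratic field, and purely of type `(1,1)`, so it is spanned by divisor classes by
Lefschetz' theorem, and lies in `N^1`. Hence the product class lies in `N^c` (`niv_of_count`).

## What is assumed

The formal properties of the Chow groups with rational coefficients (`IsChowProj`), of the
cohomology with complex coefficients (`IsWeilProj`) and of the Hodge decomposition, including the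
theorem of Lefschetz on `(1,1)`-classes (`IsHodge`), that classes of cycles of codimension `p` are of
type `(p, p)` (`ClTypes`), the resolution of singularities of divisors (`HasResolution`), and, in
(2), that correspondences of degree zero preserve `N^1` (`NivAct`).
-/

set_option autoImplicit false

universe u v

namespace Pool.Agent.Results.MP_1c689d_ag.CurveProductQuotients

open CategoryTheory AlgebraicGeometry Pool.Agent.H914 Pool.Agent.H914.VarClass
  Pool.Agent.H914.VarClass.Obj Pool.Agent.W492.BB Pool.Agent.W550.Corr Pool.Agent.TH133
open Pool.Agent.U191.EY Pool.Agent.U191.EZ

/-- **Grothendieck's coniveau conjecture** for the summands and quotients of products of curves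
which are cut out by finite groups with characters in a quadratic field. -/
theorem result {k : Type u} [Field k] {𝒱 : VarClass k} (C : TheoryData.{u, v, 0} 𝒱 ℚ)
    (H : WeilTheoryData.{u, v, 0} C ℂ) (hC : IsChowProj C) (hH : IsWeilProj H)
    (D : ∀ V : 𝒱.Obj, HodgeRing (H.A V)) (hD : IsHodge H D) (hcl : ClTypes H D)
    (hR : HasResolution C) (e : ℕ) (L : List (GCurve 𝒱))
    (hact : ∀ s ∈ L, s.IsAction) (hchar : ∀ s ∈ L, HasCharactersIn e s.G)
    (B : 𝒱.Obj) (hB : B.dim = 0) :
    (∀ (a : Grp L → ℚ) (i c : ℕ), Kills (D (prodL B L)) i c (cohOp H B L a) →
      MapsToNiv H (prodL B L) i c (cohOp H B L a)) ∧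
    (NivAct H → ∀ (i : ℕ) (Y : 𝒱.Obj), Dominates H B L i Y → NoForms (D Y) i →
      MapsToNiv H Y i 1 id) ∧
    ∀ (S : Set (Grp L)) (Y : 𝒱.Obj) (f : prodL B L ⟶ Y), IsQuotientH H B L S Y f →
      ∀ i c : ℕ, NoTypes (D Y) i c → MapsToNiv H Y i c id :=
  ⟨fun a _ _ ha _ hx => element hR hD hcl hB L hact hchar a ha hx,
    fun hN _ _ ⟨_, _, _, hY⟩ hi _ hy => summand_one hR hD hcl hB L hact hchar hN hY hi hy,
    fun _ _ _ hY _ _ hi _ hy => quotient hR hD hcl hB L hact hchar hY hi hy⟩

end Pool.Agent.Results.MP_1c689d_ag.CurveProductQuotients
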