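import Mathlib
import Pool.Agent.U46.EX10

/-!
# Grothendieck's conjecture in coniveau one for the varieties dominated by the members of ANY family of
# abelian varieties and a fixed variety, outside a small set of members

Let `A → U` be any holomorphic family of principally polarized abelian varieties of dimension `g` over
an open subset `U` of `ℂ ^ d`, given by its period matrices `Z t`; for instance `U` is the Siegel space.
Nothing is assumed about the members. Let

  `e(g, ρ) = [max (g ^ 2 / 4, (ρ + 1) ^ 2 / 4 + (g - ρ - 1) (g - ρ) / 2)]`;

`e(g, 0) = g (g - 1) / 2`, and `e(g, 3) = 4, 6, 9, 12, 16, 20, 25, 32, 40` for `g = 4, ..., 12`. All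
statements are on the members `A_t` outside a union of countably many complex submanifolds of `U` of
codimension `r - e`, where `r` is (a lower bound for) the number of moduli of the family at `t`, the
rank of the Kodaira-Spencer map. For the Siegel space, `r = g (g + 1) / 2`, these submanifolds have
dimension `e`.

**Theorem.** (1) Let `Y` be any fixed smooth projective variety which satisfies the generalized Hodge
conjecture in coniveau one (for instance a point, a curve or a surface). For all `t` outside countably many
submanifolds of codimension `r - g (g - 1) / 2`, Grothendieck's conjecture holds for all smooth projective
varieties `X` which are dominated by `A_t ^ n × Y` for some `n`: if `h^(i, 0)(X) = 0` then `H^i(X, ℚ)`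
vanishes on a dense open subset of `X`, for all `i`. (For the Siegel space the codimension is `g`.)

(2) Let `K` be a countable subfield of `ℂ` (each variety has its Hodge filtration defined over such a
field). For all `t` outside countably many submanifolds of codimension `r - e(g, ρ)` the abelian variety
`A_t` is isogenous to a product `A₁ × A₂`, `dim A₂ ≤ ρ`, such that the statement in (1) is true for
`A₁ ^ n × Y` for all `Y` (with coniveau one) which are of CM type or have their Hodge filtration over the
field generated by `K` and the periods of `A₂` (for instance `Y = A₂ ^ m × Y'`); if `ρ = 0` it is true for
`A_t ^ n × Y`, all these `Y` at once.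

For `ρ = 3` and `Y = A₂ ^ m` (the generalized Hodge conjecture is a starting result for powers of abelian
varieties of dimension at most three) the statement (2) is on all varieties dominated by powers of `A_t`:
so the set of the principally polarized abelian varieties `A` such that Grothendieck's conjecture fails
for some variety dominated by a power of `A` does not contain an analytic subset of dimension more
than `e(g, 3)`: its codimension in the moduli space is at least `4 g - 10` for `g ≥ 10`. (See also
`Pool.Agent.U46.EX.exceptional_products`, in the language of abelian varieties up to isogeny.)

The proof. If `e + 1` of the entries of `Z t` are algebraically independent over `K`, then the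
assertions are true: the theorems on abelian varieties with many independent periods (library
`X311.ghc_periods` and its application in coniveau one `MP_1c689d_ag.ManyPeriods`).
New here is the size of the set of the other points: if at most `e` of the values of `r` entries
with independent differentials at `t` are independent over `K`, then there are `r - e` polynomials over
`K` which vanish at the values, and which, composed with the entries, have independent differentials
at `t` (`Pool.Agent.U46.EX.exceptional`). There are only countably many polynomials.
-/

set_option autoImplicit false

namespace Pool.Agent.Results.MP_1c689d_ag.ExceptionalFibres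

open Pool.Agent.U46.EX Pool.Agent.TH131.GHC

/-- **Grothendieck's conjecture in coniveau one outside countably many submanifolds of large
codimension**, for any holomorphic family `Z` of period matrices over an open set `U`. -/
theorem result {g d : ℕ} {U : Set (Fin d → ℂ)} (Z : (Fin d → ℂ) → Matrix (Fin g) (Fin g) ℂ)
    (hol : ∀ i j, AnalyticOnNhd ℂ (fun t => Z t i j) U)
    (hZ : ∀ t ∈ U, (Z t).transpose = Z t ∧ ((Z t).map Complex.im).PosDef) :
    (∀ {v : ℕ} (V : Coh v) (r : ℕ),
      InSubmanifolds U {t | t ∈ U ∧ r ≤ moduli Z t ∧ ¬ OneOverPowers (Z t) V}
        (r - excDim g 0)) ∧
    ∀ (K : Subfield ℂ) [Countable K] (ρ r : ℕ),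
      InSubmanifolds U {t | t ∈ U ∧ r ≤ moduli Z t ∧ ¬ IsGoodOne K ρ (Z t)} (r - excDim g ρ) :=
  ⟨fun V r => exceptional_over Z hol hZ V r, fun K _ ρ r => exceptional_one K Z hol hZ ρ r⟩

end Pool.Agent.Results.MP_1c689d_ag.ExceptionalFibres
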