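import Mathlib
import Pool.Agent.X311.Cn1

/-!
# The case of coniveau one for the varieties dominated by products with abelian varieties with many
# algebraically independent periods

Let `A = ℂ ^ g / (ℤ ^ g + Z ℤ ^ g)` be a principally polarized abelian variety (every complex abelian
variety is isogenous to one); nothing is assumed about its simple factors or its endomorphism algebra.
Let `K` be a subfield of the complex numbers, and suppose that `D` of the entries of the period matrix
`Z` are algebraically independent over `K`. We prove Grothendieck's conjecture in coniveau one for all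
smooth projective varieties `X` dominated by `A ^ n × Y`, for any `n`, if `D > g ^ 2 / 4` and
`D > g (g - 1) / 2` (there are `g (g + 1) / 2` periods), where `Y` is any smooth projective variety
which satisfies the generalized Hodge conjecture in coniveau one (for instance a point, a curve, a
surface), and `Y` is of CM type or has its Hodge filtration defined over `K`: if `h^(i, 0)(X) = 0` then
`H^i(X, ℚ)` vanishes on a dense Zariski open subset of `X`, in all degrees `i`.

If there are fewer independent periods, then `A` is isogenous to a product `A₁ × A₂` of principally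
polarized abelian varieties with period matrices `Z₁`, `Z₂`, the dimension `r` of `A₂` is small
(`SmallQuotient g D r`), and the same is true for all `X` dominated by `A₁ ^ n × Y`, where `Y` is of CM
type or has its Hodge filtration defined over the field generated by `K` and the periods of `A₂` (for
instance `Y = A₂ ^ m × Y'`).

Only the case of coniveau one of the generalized Hodge conjecture is assumed for `Y`. The proof uses the
theorem of the library on the sub-Hodge structures of `H(A ^ n × Y)` (`Pool.Agent.X311.ghc_periods`),
which is true for all filtrations `N` on the cohomology of `Y`, for the filtration with the same space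
in all positive degrees; the image of `H^i(X)` in `H^i(A ^ n × Y)` has level at most `i - 2` if
`h^(i, 0)(X) = 0`.
-/

set_option autoImplicit false

namespace Pool.Agent.Results.MP_1c689d_ag.ManyPeriods

open Matrix Pool.Agent.H204R3.CM Pool.Agent.W437.HC Pool.Agent.W437.HD Pool.Agent.TH131.GHC
  Pool.Agent.X311 Pool.Agent.TH504.CB Pool.Agent.X311.Cn1

/-- Let `A` be the abelian variety with period matrix `Z` and `Y` the variety with cohomology `V`. If
`Y` satisfies the generalized Hodge conjecture in coniveau one (`N` is the space of the classes which
vanish on a dense open subset of `Y`), then Grothendieck's conjecture in coniveau one holds, in all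
degrees, for all varieties (with cohomology `H`) which are dominated by `A ^ n × Y`, for all `n`. -/
def ConiveauOneOverPowers {g : ℕ} (Z : Matrix (Fin g) (Fin g) ℂ) {v : ℕ} (V : Coh v) : Prop :=
  ∀ N : Submodule ℚ (Fin v → ℚ), GHCOne V N → ∀ (n x : ℕ) (H : Coh x)
    (NX : Submodule ℚ (Fin x → ℚ)), IsEffective H → IsDominated (perPow Z n) V N H NX →
      ConiveauOne H NX

theorem of_transfers {g : ℕ} {Z : Matrix (Fin g) (Fin g) ℂ} (hZ : IsPeriodMatrix Z) {v : ℕ}
    {V : Coh v} (h : TransfersGHC Z V) : ConiveauOneOverPowers Z V := by
  intro N hN n x H NX heff hdom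
  exact coniveauOne_of_ghc hdom heff (h (filt N) (ghcz_filt hN) n)
    (uniq_of_span (span_perPow Z hZ.2 n))

/-- **Grothendieck's conjecture in coniveau one for all varieties dominated by products of powers of
an abelian variety with many algebraically independent periods and a variety of CM type or with a Hodge
filtration over the ground field.** -/
theorem result {g : ℕ} (Z : Matrix (Fin g) (Fin g) ℂ) (hZ : IsPeriodMatrix Z) (K : Subfield ℂ)
    {D : ℕ} (p : Fin D → Fin g × Fin g)
    (hp : AlgebraicIndependent K fun s => Z (p s).1 (p s).2) :
    (∃ (b r : ℕ) (Z₁ : Matrix (Fin b) (Fin b) ℂ) (Z₂ : Matrix (Fin r) (Fin r) ℂ),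
      IsPeriodMatrix Z₁ ∧ IsPeriodMatrix Z₂ ∧ IsIsogenousToProduct Z Z₁ Z₂ ∧ b + r = g ∧
      SmallQuotient g D r ∧
      ∀ (v : ℕ) (V : Coh v), IsOfCMType V ∨ HasFiltrationOver (periodField K Z₂) V →
        ConiveauOneOverPowers Z₁ V) ∧
    (g ^ 2 < 4 * D → g * (g - 1) < 2 * D →
      ∀ (v : ℕ) (V : Coh v), IsOfCMType V ∨ HasFiltrationOver K V →
        ConiveauOneOverPowers Z V) := by
  obtain ⟨b, r, Z₁, Z₂, h1, h2, h3, h4, h5, h6, h7⟩ := ghc_periods Z hZ.1 hZ.2 K p hp
  refine ⟨⟨b, r, Z₁, Z₂, h1, h2, h3, h4, h5, fun v V hV => of_transfers h1 (h6 v V hV)⟩,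
    fun ha hb v V hV => of_transfers hZ (h7 ?_ v V hV)⟩
  have h8 := h5 0 ha (by
    simp only [zero_add, one_pow, Nat.sub_zero]
    have h9 : 2 * (g - 1) * g = 2 * (g * (g - 1)) := by ring
    rw [h9]
    omega)
  omega

end Pool.Agent.Results.MP_1c689d_ag.ManyPeriods
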