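import Pool.Agent.U625.OF.Fin

/-!
# Grothendieck's coniveau question for the powers of a variety with one holomorphic form

Let `X` be a connected smooth projective complex variety with, up to scalars, exactly one holomorphic
form of positive degree, `h^(e,0)(X) = 1` and `h^(p,0)(X) = 0` for `p ≥ 1`, `p ≠ e`
(`HasOneForm T X e`). Examples are K3 surfaces and all other surfaces with `p_g = 1` and `q = 0`,
Calabi-Yau varieties in the strict sense, and the varieties which are birational to these. In the
abstract setting `T` is a Hodge theory, and the Hodge structure `H(X)` has a polarisation `ψ`. Recall
that `pw X n` is `X ^ (n + 1)`, so `pw X 1` is `X × X`.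

**Theorem.** (1) For all `n` and `i` every sub-Hodge structure of `H^i(X ^ (n + 1))` of level at most
`i - 2` (the only ones which can vanish on an open subset) is contained in the span of the products
`f^* y ∪ b` where `f : X ^ (n + 1) → X × X` is a coordinate map, `y` is a class in a sub-Hodge
structure of `H^j(X × X)` of level at most `j - 2`, and `b` is any class on `X ^ (n + 1)`. This is
unconditional.

(2) If the coniveau one case of the generalized Hodge conjecture holds for `X × X`, then it holds for
all powers of `X` and for all varieties `Y` dominated by powers of `X`; in particular for such `Y`
Grothendieck's question has a positive answer: if `h^(i,0)(Y) = 0`, then `H^i(Y) = N^1 H^i(Y)`, so that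
`H^i(Y)` vanishes on a dense open subset.

The number two of factors in (1) is optimal: if `S` is the smallest sub-Hodge structure of `H^e(X)` which
contains the form, then the component of the class of the diagonal in `S ⊗ S` is not generated by the
sub-Hodge structures of `H^j(X)` of level at most `j - 2` in this way. The starting result
`OnePowerSuffices` on the generalized Hodge conjecture for the powers of an arbitrary variety gives a
power `X ^ (N + 1)` with `N` not explicit, and there one needs the sub-Hodge structures of `X ^ (N + 1)`
of all levels, and push-forwards.

The proof. Let `g` be the Lie algebra of the operators `D` on `H(X)_ℂ` which, acting as derivations,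
kill all Hodge classes on all powers of `X`. It is stable under adjoints for the scalar product given
by the polarisation. A rational subspace of `H^i(X ^ (n + 1))` is contained in a sub-Hodge structure of
level at most `i - 2` if and only if its elements are orthogonal to the `g`-module `M` generated by
the forms of type `(i, 0)` for all conjugate Hodge structures. Let `K` be the space of the tensors
`u` in `H^(d_0)(X) ⊗ ... ⊗ H^(d_n)(X)` whose slices in all pairs of slots are in the module `M` of
`X × X`; one has to show `K ⊆ M`. Assume that `u ≠ 0` is in `K` and orthogonal to `M`. Then every `d_k`
is `0` or `e`, and on the slots of degree `e` the tensor `u` is in the tensor power of an irreducible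
submodule `V` of `H^e(X)_ℂ`, generated by the form `ω` for one of the conjugate Hodge structures (here
one uses that `H^(e,0)(X)` is a line). Let `x` be a Hermitian element of norm 1 of `g` with the largest
possible eigenvalue `m` on `V`, and `w` an eigenvector. Then `w` spans the eigenspace, the square of
`w` lies in the irreducible module `M_2 ⊆ V ⊗ V` generated by `ω ⊗ ω`, and the polarised Casimir
operator `Σ b_i ⊗ b_i^*` acts on `M_2` as the scalar `m^2`. Therefore `Σ_{s ≠ t} Ω_(s,t)` acts on the
submodule generated by `u` as the scalar `r (r - 1) m^2`, `r` the number of slots of degree `e`, and the
largest eigenvalue of Hermitian elements of norm 1 of `g` on this submodule is seen to be `r m`; so the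
submodule contains `w ⊗ ... ⊗ w`, which is not orthogonal to `M`. This replaces the theory of highest
weights (Kostant's theorem on the quadrics which define the cone of highest weight vectors).
-/

set_option autoImplicit false

open CategoryTheory AlgebraicGeometry

universe u

namespace Pool.Agent.Results.MP_1c689d_ag.OneHolomorphicForm

open Pool.Agent.H914 Pool.Agent.H914.VarClass Pool.Agent.H914.VarClass.Obj
  Pool.Agent.H914.WeilCohomology Pool.Agent.Y121.AHS Pool.Agent.U228.FG Pool.Agent.U625.OF
open Pool.Agent.Y133.Half (pw)
open Pool.Agent.N204.GH (Within spanOf)

/-- The sub-Hodge structures of level at most `i - 2` in the cohomology of the powers of a variety `X`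
with one holomorphic form, and the reduction of Grothendieck's question for all varieties dominated
by powers of `X` to `X × X`. -/
theorem result {k : Type u} [Field k] {𝒱 : VarClass k} {ops : CycleOps 𝒱} (T : HodgeTheory ops)
    (hT : NonnegTypes T) (X : 𝒱.Obj) (ψ : RForm T X) (hψ : IsPolarisation T X ψ) (e : ℕ)
    (hX : HasOneForm T X e) :
    (∀ (n i : ℕ) (V : Subspace T (pw X n)), IsSubHodge T i 1 V →
      Within V (spanOf T.W.K (IsPairProduct T X n))) ∧
    (GHCOne T (pw X 1) → (∀ n, GHCOne T (pw X n)) ∧
      ∀ Y, DominatedByPowers T X Y → GHCOne T Y ∧
        ∀ i, NoForms T Y i → Within (T.W.gr Y i) (coniveau T 1 Y)) :=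
  main hT hψ hX

end Pool.Agent.Results.MP_1c689d_ag.OneHolomorphicForm
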